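import Pool.Agent.helper32.EXT.Spec7

/-!
# Project EXT, row CNY: opposite pairs with the same form value give conjugate elements
-/

set_option autoImplicit false

open Finset

namespace Pool.Agent.EXT

open Pool.Agent.EXC

theorem CNY_uniq {K : Type} [Field K] (τ : K ≃+* K) (a : Lm C6 K) (t : K) (f f' : Equiv.Perm (LT τ)) (h : IsF τ a t f)
    (h' : IsF τ a t f') : f = f' :=
  Equiv.ext fun v => Subtype.ext ((h v).trans (h' v).symm)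

theorem CNY (hPA2 : PA2_stmt) (hESF : ESF_stmt) (hGFX : GFX_stmt) (hUNF : UNF_stmt) : CNY_stmt := by
  intro K _ τ hτ a b a' b' y y' ha hb ha' hb' hne heq hy hy'
  obtain ⟨g, hg, h1, h2⟩ := hPA2 K τ hτ a b a' b' ha hb ha' hb' hne heq
  obtain ⟨f, hf, hfv⟩ := (hGFX K τ hτ).1 g hg
  obtain ⟨p, q, hp, hq, rfl⟩ := hy
  obtain ⟨p', q', hp', hq', rfl⟩ := hy'
  have h3 := ((hGFX K τ hτ).2 a ha).2.2.2.2 f hf g hg hfv 1 p hp
  have h4 := ((hGFX K τ hτ).2 b hb).2.2.2.2 f hf g hg hfv 1 q hq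
  rw [h1] at h3
  rw [h2] at h4
  have h5 : p' = ⟨f, hf⟩ * p * (⟨f, hf⟩ : GF τ)⁻¹ := Subtype.ext (CNY_uniq τ a' 1 _ _ hp' h3)
  have h6 : q' = ⟨f, hf⟩ * q * (⟨f, hf⟩ : GF τ)⁻¹ := Subtype.ext (CNY_uniq τ b' 1 _ _ hq' h4)
  refine ⟨⟨f, hf⟩, ?_⟩
  rw [h5, h6]
  group

end Pool.Agent.EXT
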